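import Pool.Agent.Helper74.TF.Rho
import Pool.Agent.Helper77.T2.OrdB

/-!
# MP_0fb3e0_gt, part TF: the unit groups
-/

set_option autoImplicit false

namespace Pool.Agent.Helper74.TF

open H77T2 L5 A5 Pool.Agent.Helper84.NG

/-- `A5 ℚ → A5 ℝ` -/
noncomputable def toR : A5 ℚ →+* A5 ℝ := A5.map (Rat.castHom ℝ)

/-- the units of `O` of reduced norm 1 -/
noncomputable def OU : Subgroup (A5 ℚ)ˣ where
  carrier := {u | u.1 ∈ O ∧ u⁻¹.1 ∈ O ∧ nr (toR u.1) = 1}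
  mul_mem' := by
    rintro a b ⟨ha, ha', ha''⟩ ⟨hb, hb', hb''⟩
    refine ⟨O.mul_mem ha hb, ?_, ?_⟩
    · rw [mul_inv_rev]; exact O.mul_mem hb' ha'
    · rw [Units.val_mul, map_mul, nr_mul, ha'', hb'', one_mul]
  one_mem' := ⟨O.one_mem, by rw [inv_one]; exact O.one_mem, by rw [Units.val_one, map_one, nr_one]⟩
  inv_mem' := by
    rintro a ⟨ha, ha', ha''⟩
    refine ⟨ha', by rw [inv_inv]; exact ha, ?_⟩
    have h : nr (toR (a.1 * a⁻¹.1)) = 1 := by rw [Units.mul_inv, map_one, nr_one]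
    rwa [map_mul, nr_mul, ha'', one_mul] at h

theorem mem_OU {u : (A5 ℚ)ˣ} : u ∈ OU ↔ u.1 ∈ O ∧ u⁻¹.1 ∈ O ∧ nr (toR u.1) = 1 := Iff.rfl

/-- the congruence subgroup modulo 3 -/
noncomputable def G0 : Subgroup (A5 ℚ)ˣ where
  carrier := {u | u ∈ OU ∧ ∃ h ∈ O, u.1 = 1 + 3 * h}
  mul_mem' := by
    rintro a b ⟨ha, h, hO, he⟩ ⟨hb, k, kO, ke⟩
    refine ⟨OU.mul_mem ha hb, h + k + h * (3 * k), ?_, ?_⟩
    · exact O.add_mem (O.add_mem hO kO) (O.mul_mem hO (O.mul_mem (ofNat_mem O 3) kO))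
    · rw [Units.val_mul, he, ke]
      noncomm_ring
  one_mem' := ⟨OU.one_mem, 0, O.zero_mem, by rw [mul_zero, add_zero]; rfl⟩
  inv_mem' := by
    rintro a ⟨ha, h, hO, he⟩
    refine ⟨OU.inv_mem ha, -(a⁻¹.1 * h), O.neg_mem (O.mul_mem ha.2.1 hO), ?_⟩
    have h1 : a⁻¹.1 * a.1 = 1 := Units.inv_mul a
    rw [he] at h1
    have h2 : a⁻¹.1 = 1 - a⁻¹.1 * (3 * h) := by
      rw [eq_sub_iff_add_eq]
      rw [mul_add, mul_one] at h1
      exact h1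
    have h3 : a⁻¹.1 * (3 * h) = 3 * (a⁻¹.1 * h) := by
      rw [← mul_assoc, ← mul_assoc]
      congr 1
      have := (Nat.cast_commute 3 a⁻¹.1).eq
      rw [Nat.cast_ofNat] at this
      exact this.symm
    rw [mul_neg, ← h3, ← sub_eq_add_neg]
    exact h2

theorem mem_G0 {u : (A5 ℚ)ˣ} : u ∈ G0 ↔ u ∈ OU ∧ ∃ h ∈ O, u.1 = 1 + 3 * h := Iff.rfl

theorem G0_le : G0 ≤ OU := fun _ h => h.1

/-- `toR` on units -/
noncomputable def toU : (A5 ℚ)ˣ →* (A5 ℝ)ˣ := Units.map toR.toMonoidHom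

theorem toU_val (g : (A5 ℚ)ˣ) : (toU g).1 = toR g.1 := rfl

/-- the normalised representation on rational units -/
noncomputable def rhoQ : (A5 ℚ)ˣ →* GL (Fin (5 + 1)) ℝ := rhoN.comp toU

theorem rhoQ_def (g : (A5 ℚ)ˣ) : rhoQ g = rhoN (toU g) := rfl

theorem rhoQ_mem (g : (A5 ℚ)ˣ) : rhoQ g ∈ IsomHyp 5 := by
  rw [rhoQ_def]
  exact rhoN_mem _

theorem rhoQ_eq_rep {g : (A5 ℚ)ˣ} (h : nr (toR g.1) = 1) : rhoQ g = rep (toU g) := by
  rw [rhoQ_def]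
  apply rhoN_eq_rep
  rw [toU_val, h]

theorem rhoQ_apply {n : ℝ} (hn : 0 < n) {g : (A5 ℚ)ˣ} (h : n ^ 2 = nr (toR g.1))
    (v : Fin 6 → ℝ) : (rhoQ g).1.mulVec (CC v) = CC (n⁻¹ • T (toR g.1) v) := by
  rw [rhoQ_def, ← toU_val]
  apply rhoN_apply hn
  rw [toU_val, h]

/-- the image of the unit group -/
noncomputable def H1 : Subgroup (GL (Fin (5 + 1)) ℝ) := OU.map rhoQ

theorem mem_H1 {γ : GL (Fin (5 + 1)) ℝ} : γ ∈ H1 ↔ ∃ u ∈ OU, rhoQ u = γ := Iff.rfl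

/-- the image of the congruence subgroup -/
noncomputable def Gam0 : Subgroup (GL (Fin (5 + 1)) ℝ) := G0.map rhoQ

theorem mem_Gam0 {γ : GL (Fin (5 + 1)) ℝ} : γ ∈ Gam0 ↔ ∃ u ∈ G0, rhoQ u = γ := Iff.rfl

theorem Gam0_le : Gam0 ≤ H1 := Subgroup.map_mono G0_le

theorem H1_le_Isom : H1 ≤ IsomHyp 5 := by
  intro γ h
  obtain ⟨u, -, rfl⟩ := mem_H1.mp h
  exact rhoQ_mem u

/-- the elements of `H1` come from the division algebra -/
theorem hrat {γ : GL (Fin (5 + 1)) ℝ} (hγ : γ ∈ H1) :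
    ∃ d : A5 ℚ, (∃ d', d * d' = 1 ∧ d' * d = 1) ∧
      ∀ x, toR d * psi x * st (toR d) = psi (γ.1.mulVec x) := by
  obtain ⟨u, hu, rfl⟩ := mem_H1.mp hγ
  refine ⟨u.1, ⟨u⁻¹.1, Units.mul_inv u, Units.inv_mul u⟩, fun x => ?_⟩
  rw [rhoQ_eq_rep hu.2.2, psi_mulVec, toU_val]

theorem toR_injective : Function.Injective toR := by
  have key : ∀ p q : L5 ℚ, L5.map (Rat.castHom ℝ) p = L5.map (Rat.castHom ℝ) q → p = q := by
    intro p q hpq
    ext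
    · exact Rat.cast_injective (α := ℝ) (congrArg L5.c0 hpq)
    · exact Rat.cast_injective (α := ℝ) (congrArg L5.c1 hpq)
    · exact Rat.cast_injective (α := ℝ) (congrArg L5.c2 hpq)
    · exact Rat.cast_injective (α := ℝ) (congrArg L5.c3 hpq)
  intro a b h
  ext1
  · exact key _ _ (congrArg A5.l0 h)
  · exact key _ _ (congrArg A5.l1 h)
  · exact key _ _ (congrArg A5.l2 h)
  · exact key _ _ (congrArg A5.l3 h)

/-- the kernel of the representation on `OU` -/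
theorem rhoQ_ker {u : (A5 ℚ)ˣ} (hu : u ∈ OU) (h : rhoQ u = 1) : u = 1 ∨ u.1 = -1 := by
  rw [rhoQ_eq_rep hu.2.2] at h
  rcases rep_ker _ h with h1 | h1
  · left
    apply Units.ext
    apply toR_injective
    rw [Units.val_one, map_one, ← toU_val, h1]
  · right
    apply toR_injective
    rw [map_neg, map_one, ← toU_val, h1]

end Pool.Agent.Helper74.TF
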