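import Pool.Agent.Helper74.TF.Fin
import Pool.Agent.Helper77.T2.OrdA
import Pool.Agent.Helper82.VL.Idx

/-!
# MP_0fb3e0_gt, part TF: the big group
-/

set_option autoImplicit false

namespace Pool.Agent.Helper74.TF

open H77T2 L5 A5 Pool.Agent.Helper84.NG Pool.Agent.Helper65.PK Pool.Agent.Helper65.FN Matrix

theorem toQ_lin (n : Fin 16 → ℤ) : toQ (lin n) = (45 : ℕ) • oe n := by
  rw [← oe_eq, nsmul_eq_mul]; norm_num

theorem nsmul_cancel' {n : ℕ} (hn : n ≠ 0) {a b : A5 ℚ} (h : n • a = n • b) : a = b := by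
  apply cancelN hn
  rwa [nsmul_eq_mul, nsmul_eq_mul] at h

/-- conjugation preserves `O` -/
theorem conj_oe {e : Fin 16 → ℤ} {a : Fin 16 → Fin 16 → ℤ}
    (h : ∀ i, lin e * bz i = lin (a i) * lin e) {y : A5 ℚ} (hy : y ∈ O) :
    ∃ y' ∈ O, oe e * y = y' * oe e := by
  obtain ⟨n, rfl⟩ := exists_oe hy
  refine ⟨oe (∑ i, n i • a i), oe_mem _, ?_⟩
  have h1 : lin e * lin n = lin (∑ i, n i • a i) * lin e := by
    rw [lin_sum, lin_eq n, Finset.mul_sum, Finset.sum_mul]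
    refine Finset.sum_congr rfl fun i _ => ?_
    rw [lin_smul, mul_assoc, ← h i, ← mul_assoc, ← mul_assoc, (Int.cast_commute (n i) (lin e)).eq]
  have h2 := congrArg toQ h1
  rw [map_mul, map_mul, toQ_lin, toQ_lin, toQ_lin, smul_mul_smul_comm, smul_mul_smul_comm] at h2
  exact nsmul_cancel' (by norm_num) h2

theorem nr_conj (g u : (A5 ℚ)ˣ) (hu : nr (toR u.1) = 1) : nr (toR (g * u * g⁻¹).1) = 1 := by
  have h : nr (toR (g.1 * g⁻¹.1)) = 1 := by rw [Units.mul_inv, map_one, nr_one]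
  rw [map_mul, nr_mul] at h
  rw [Units.val_mul, Units.val_mul, map_mul, map_mul, nr_mul, nr_mul, hu, mul_one]
  exact h

theorem conj_OU {g : (A5 ℚ)ˣ} {e : Fin 16 → ℤ} (hg : g.1 = oe e) {a : Fin 16 → Fin 16 → ℤ}
    (h : ∀ i, lin e * bz i = lin (a i) * lin e) {u : (A5 ℚ)ˣ} (hu : u ∈ OU) :
    g * u * g⁻¹ ∈ OU := by
  have key : ∀ v : (A5 ℚ)ˣ, v.1 ∈ O → (g * v * g⁻¹).1 ∈ O := by
    intro v hv
    obtain ⟨y', hy', he⟩ := conj_oe h hv
    rw [Units.val_mul, Units.val_mul, hg, he, ← hg, mul_assoc, Units.mul_inv, mul_one]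
    exact hy'
  refine ⟨key u hu.1, ?_, nr_conj g u hu.2.2⟩
  have h1 : (g * u * g⁻¹)⁻¹ = g * u⁻¹ * g⁻¹ := by group
  rw [h1]
  exact key u⁻¹ hu.2.1

/-- scalars act trivially -/
theorem rhoQ_scalar {s : (A5 ℚ)ˣ} {c : ℚ} (hs : s.1 = A5.of c) : rhoQ s = 1 := by
  have h0 : (toU s).1 = (c : ℝ) • (1 : A5 ℝ) := by
    rw [toU_val, hs]
    ext <;> simp [toR, A5.map, L5.map, A5.of, L5.of]
  have hst : st ((c : ℝ) • (1 : A5 ℝ)) = (c : ℝ) • (1 : A5 ℝ) := by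
    rw [← stL_apply, map_smul, stL_apply, st_one]
  have hMM : ∀ y, MM (toU s).1 y = ((c : ℝ) * c) • y := by
    intro y
    apply psi_inj
    rw [psi_MM, h0, hst, map_smul, smul_mul_assoc, one_mul, mul_smul_comm, mul_one, smul_smul]
  have hc0 : (c : ℝ) ≠ 0 := by
    intro h
    have h1 : (toU s).1 * (toU s)⁻¹.1 = 1 := Units.mul_inv _
    rw [h0, h, zero_smul, zero_mul] at h1
    exact zero_ne_one h1
  have hpos : 0 < (c : ℝ) * c := mul_self_pos.mpr hc0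
  have hnr : ((c : ℝ) * c) ^ 2 = nr (toU s).1 := by
    rw [← nr_eq_mink, hMM, mink_smul]
    have : mink 5 (Pi.single 0 1 : Fin (5 + 1) → ℝ) (Pi.single 0 1) = 1 := by
      unfold mink
      rw [Fin.sum_univ_five]
      simp
    rw [this, mul_one, sq]
  have h1 : ∀ y, (rhoQ s).1 *ᵥ y = y := by
    intro y
    rw [rhoQ_def, rhoN_mulVec, cU_of_sq hpos hnr, hMM, smul_smul, inv_mul_cancel₀ hpos.ne',
      one_smul]
  apply Units.ext
  apply Matrix.mulVec_injective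
  ext v : 1
  rw [h1, Units.val_one, one_mulVec]

/-- scalar units -/
noncomputable def sU : ℚˣ →* (A5 ℚ)ˣ := Units.map (ofA : ℚ →+* A5 ℚ).toMonoidHom

theorem sU_val (c : ℚˣ) : (sU c).1 = A5.of (c : ℚ) := rfl

theorem uw_sq : uw ^ 2 = sU (Units.mk0 2 (by norm_num)) * u1 := by
  apply Units.ext
  rw [sq, Units.val_mul, Units.val_mul, sU_val]
  show oe (ec 0) * oe (ec 0) = A5.of 2 * oe (ec 1)
  rw [w_mul_w, two_eq]

theorem ux_pow4 : ux ^ 4 = sU (Units.mk0 (-54) (by norm_num)) := by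
  apply Units.ext
  rw [Units.val_pow_eq_pow_val, sU_val]
  show (A5.x : A5 ℚ) ^ 4 = A5.of (-54)
  rw [← neg54, ← x_pow4]
  simp only [pow_succ, pow_zero, one_mul]

theorem oe_x : oe (ec 17) = A5.x := by
  apply cancel45
  rw [oe_eq, lin_x, map_mul, map_ofNat]
  congr 1

theorem ux_val : ux.1 = A5.x := rfl
theorem uw_val : uw.1 = oe (ec 0) := rfl
theorem u2_val : u2.1 = oe (ec 3) := rfl

theorem xw_comm : ux * uw * ux⁻¹ * uw⁻¹ = u2 := by
  have h : ux * uw = u2 * uw * ux := by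
    apply Units.ext
    rw [Units.val_mul, Units.val_mul, Units.val_mul, ux_val, uw_val, u2_val, ← oe_x]
    have h1 : lin (ec 17) * lin (ec 0) * ((45 : ℕ) : A5 ℤ) =
        lin (ec 3) * lin (ec 0) * lin (ec 17) := by
      rw [← x_w]; norm_num
    have h2 := congrArg toQ h1
    rw [map_mul, map_mul, map_mul, map_mul, toQ_lin, toQ_lin, toQ_lin, toQ_ofNat] at h2
    have h3 : (((45 : ℕ) : ℕ) : A5 ℚ) = (45 : ℕ) • (1 : A5 ℚ) := by
      rw [nsmul_eq_mul, mul_one]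
    rw [h3, smul_mul_smul_comm, smul_mul_smul_comm, smul_mul_smul_comm, smul_mul_smul_comm,
      mul_one] at h2
    exact nsmul_cancel' (by norm_num) h2
  rw [h]
  group

theorem exists_big : ∃ H : Subgroup (GL (Fin (5 + 1)) ℝ), H ≤ IsomHyp 5 ∧
    (∀ C : ℝ, {γ : GL (Fin (5 + 1)) ℝ | γ ∈ H ∧ (γ.1 *ᵥ e0 5) 0 ≤ C}.Finite) ∧
    H1 ≤ H ∧ H1.relIndex H ≠ 0 ∧ rhoQ uz ∈ H ∧ rhoQ ux ∈ H ∧ rhoQ uw ∈ H ∧
    ∀ m, rhoQ (uk m) ∈ H := by
  have hc : ∀ g : (A5 ℚ)ˣ, (∀ u ∈ OU, g * u * g⁻¹ ∈ OU) →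
      ∀ h ∈ H1, rhoQ g * h * (rhoQ g)⁻¹ ∈ H1 := by
    intro g hg h hh
    obtain ⟨u, hu, rfl⟩ := mem_H1.mp hh
    exact mem_H1.mpr ⟨g * u * g⁻¹, hg u hu, by rw [map_mul, map_mul, map_inv]⟩
  obtain ⟨H, hH1, hW, hX, hcl, hfi⟩ := Pool.Agent.Helper82.VL.exists_fin_ext H1 (rhoQ uw) (rhoQ ux)
    (hc uw fun u hu => conj_OU (e := ec 0) rfl w_conj hu)
    (hc ux fun u hu => conj_OU (e := ec 17) oe_x.symm x_conj hu)
    (by
      rw [← map_pow, uw_sq, map_mul, rhoQ_scalar (sU_val _), one_mul]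
      exact mem_H1.mpr ⟨u1, u1_mem, rfl⟩)
    (by
      rw [← map_pow, ux_pow4, rhoQ_scalar (sU_val _)]
      exact H1.one_mem)
    (by
      rw [← map_inv, ← map_inv, ← map_mul, ← map_mul, ← map_mul, xw_comm]
      exact mem_H1.mpr ⟨u2, u2_mem, rfl⟩)
  have hI : H ≤ IsomHyp 5 := by
    refine hcl.trans ?_
    rw [Subgroup.closure_le]
    rintro g (hg | rfl | rfl)
    · exact H1_le_Isom hg
    · exact rhoQ_mem _
    · exact rhoQ_mem _
  have hm : ∀ {u : (A5 ℚ)ˣ}, u ∈ OU → rhoQ u ∈ H := fun {u} hu => hH1 (mem_H1.mpr ⟨u, hu, rfl⟩)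
  refine ⟨H, hI, hfin_of_finiteIndex hI hfi hfin_H1, hH1, hfi.index_ne_zero, hm uz_mem, hX, hW, ?_⟩
  intro m
  fin_cases m
  · exact hm uk0_mem
  · exact hW
  · show rhoQ (uv2 * uw) ∈ H
    rw [map_mul]
    exact H.mul_mem (hm uv2_mem) hW
  · show rhoQ (uv3 * uw) ∈ H
    rw [map_mul]
    exact H.mul_mem (hm uv3_mem) hW
  · exact hm uk4_mem

/-- the big group -/
noncomputable def HB : Subgroup (GL (Fin (5 + 1)) ℝ) := Classical.choose exists_big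

theorem HB_le : HB ≤ IsomHyp 5 := (Classical.choose_spec exists_big).1

theorem HB_fin (C : ℝ) : {γ : GL (Fin (5 + 1)) ℝ | γ ∈ HB ∧ (γ.1 *ᵥ e0 5) 0 ≤ C}.Finite :=
  (Classical.choose_spec exists_big).2.1 C

theorem H1_le_HB : H1 ≤ HB := (Classical.choose_spec exists_big).2.2.1

theorem HB_index : H1.relIndex HB ≠ 0 := (Classical.choose_spec exists_big).2.2.2.1

theorem uz_HB : rhoQ uz ∈ HB := (Classical.choose_spec exists_big).2.2.2.2.1

theorem ux_HB : rhoQ ux ∈ HB := (Classical.choose_spec exists_big).2.2.2.2.2.1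

theorem uw_HB : rhoQ uw ∈ HB := (Classical.choose_spec exists_big).2.2.2.2.2.2.1

theorem uk_HB (m : Fin 5) : rhoQ (uk m) ∈ HB := (Classical.choose_spec exists_big).2.2.2.2.2.2.2 m

/-- (B4) -/
theorem G0_index : (G0.subgroupOf OU).FiniteIndex :=
  Pool.Agent.Helper82.VL.finIdx_units OU G0 (fun _ hu => ⟨hu.1, hu.2.1⟩)
    (fun _ hu h => ⟨hu, h⟩)

end Pool.Agent.Helper74.TF
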