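import Pool.Agent.Helper74.TF.NrQ
import Pool.Agent.Helper65.FN.Lat

/-!
# MP_0fb3e0_gt, part TF: finiteness of the unit group in balls
-/

set_option autoImplicit false

namespace Pool.Agent.Helper74.TF

open H77T2 L5 A5 Pool.Agent.Helper84.NG Pool.Agent.Helper65.PK Pool.Agent.Helper65.FN Matrix

theorem sq_le_trL (p : L5 ℝ) : p.c0 ^ 2 ≤ 4 * trL (p * cj p) ∧ p.c1 ^ 2 ≤ 4 * trL (p * cj p) ∧
    p.c2 ^ 2 ≤ 4 * trL (p * cj p) ∧ p.c3 ^ 2 ≤ 4 * trL (p * cj p) := by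
  rw [trL_expand]
  refine ⟨?_, ?_, ?_, ?_⟩ <;>
  nlinarith [sq_nonneg p.c0, sq_nonneg p.c1, sq_nonneg p.c2, sq_nonneg p.c3,
    sq_nonneg (p.c0 - p.c1), sq_nonneg (p.c0 - p.c2), sq_nonneg (p.c0 - p.c3),
    sq_nonneg (p.c1 - p.c2), sq_nonneg (p.c1 - p.c3), sq_nonneg (p.c2 - p.c3)]

theorem s54_ge : 1 ≤ s54 := by
  unfold s54
  rw [Real.one_le_sqrt]
  norm_num

theorem trL_le (g : A5 ℝ) : trL (g.l0 * cj g.l0) ≤ trA (g * st g) ∧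
    trL (g.l1 * cj g.l1) ≤ trA (g * st g) ∧ trL (g.l2 * cj g.l2) ≤ trA (g * st g) ∧
    trL (g.l3 * cj g.l3) ≤ trA (g * st g) := by
  rw [trA_star]
  have hs := s54_ge
  have h0 := trL_pos g.l0
  have h1 := trL_pos g.l1
  have h2 := trL_pos g.l2
  have h3 := trL_pos g.l3
  have k1 : trL (g.l1 * cj g.l1) ≤ s54 * trL (g.l1 * cj g.l1) := le_mul_of_one_le_left h1 hs
  have k3 : trL (g.l3 * cj g.l3) ≤ 54 * s54 * trL (g.l3 * cj g.l3) :=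
    le_mul_of_one_le_left h3 (by linarith)
  refine ⟨?_, ?_, ?_, ?_⟩ <;> linarith

/-- the coordinates of elements of `L5` -/
def coL (p : L5 ℚ) (j : Fin 4) : ℚ := ![p.c0, p.c1, p.c2, p.c3] j

/-- the coordinates of elements of `A5` -/
def coA (g : A5 ℚ) (i : Fin 4 × Fin 4) : ℚ := ![coL g.l0, coL g.l1, coL g.l2, coL g.l3] i.1 i.2

theorem coA_inj : Function.Injective coA := by
  intro a b h
  have h' : ∀ i j, coA a (i, j) = coA b (i, j) := fun i j => congrFun h (i, j)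
  ext
  · exact h' 0 0
  · exact h' 0 1
  · exact h' 0 2
  · exact h' 0 3
  · exact h' 1 0
  · exact h' 1 1
  · exact h' 1 2
  · exact h' 1 3
  · exact h' 2 0
  · exact h' 2 1
  · exact h' 2 2
  · exact h' 2 3
  · exact h' 3 0
  · exact h' 3 1
  · exact h' 3 2
  · exact h' 3 3

theorem coA_bound (g : A5 ℚ) {C : ℝ} (h : trA (toR g * st (toR g)) ≤ C) (i : Fin 4 × Fin 4) :
    ((coA g i : ℚ) : ℝ) ^ 2 ≤ 4 * C := by
  obtain ⟨k0, k1, k2, k3⟩ := trL_le (toR g)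
  obtain ⟨a0, a1, a2, a3⟩ := sq_le_trL (toR g).l0
  obtain ⟨b0, b1, b2, b3⟩ := sq_le_trL (toR g).l1
  obtain ⟨c0, c1, c2, c3⟩ := sq_le_trL (toR g).l2
  obtain ⟨d0, d1, d2, d3⟩ := sq_le_trL (toR g).l3
  obtain ⟨i, j⟩ := i
  fin_cases i <;> fin_cases j
  · exact (a0.trans (by linarith) : (toR g).l0.c0 ^ 2 ≤ 4 * C)
  · exact (a1.trans (by linarith) : (toR g).l0.c1 ^ 2 ≤ 4 * C)
  · exact (a2.trans (by linarith) : (toR g).l0.c2 ^ 2 ≤ 4 * C)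
  · exact (a3.trans (by linarith) : (toR g).l0.c3 ^ 2 ≤ 4 * C)
  · exact (b0.trans (by linarith) : (toR g).l1.c0 ^ 2 ≤ 4 * C)
  · exact (b1.trans (by linarith) : (toR g).l1.c1 ^ 2 ≤ 4 * C)
  · exact (b2.trans (by linarith) : (toR g).l1.c2 ^ 2 ≤ 4 * C)
  · exact (b3.trans (by linarith) : (toR g).l1.c3 ^ 2 ≤ 4 * C)
  · exact (c0.trans (by linarith) : (toR g).l2.c0 ^ 2 ≤ 4 * C)
  · exact (c1.trans (by linarith) : (toR g).l2.c1 ^ 2 ≤ 4 * C)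
  · exact (c2.trans (by linarith) : (toR g).l2.c2 ^ 2 ≤ 4 * C)
  · exact (c3.trans (by linarith) : (toR g).l2.c3 ^ 2 ≤ 4 * C)
  · exact (d0.trans (by linarith) : (toR g).l3.c0 ^ 2 ≤ 4 * C)
  · exact (d1.trans (by linarith) : (toR g).l3.c1 ^ 2 ≤ 4 * C)
  · exact (d2.trans (by linarith) : (toR g).l3.c2 ^ 2 ≤ 4 * C)
  · exact (d3.trans (by linarith) : (toR g).l3.c3 ^ 2 ≤ 4 * C)

theorem coA_int {g : A5 ℚ} (h : g ∈ O) (i : Fin 4 × Fin 4) : ∃ k : ℤ, 45 * coA g i = k := by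
  obtain ⟨n, hn⟩ := h
  have h45 : (45 : A5 ℚ) * g = 45 • g := by rw [nsmul_eq_mul]; norm_num
  rw [h45] at hn
  have key : ∀ i j, (45 : ℕ) • coA g (i, j) = coA (toQ (lin n)) (i, j) := by
    intro i j
    rw [← hn]
    fin_cases i <;> fin_cases j <;> rfl
  have key2 : ∀ i j, ∃ k : ℤ, coA (toQ (lin n)) (i, j) = k := by
    intro i j
    fin_cases i <;> fin_cases j
    · exact ⟨(lin n).l0.c0, rfl⟩
    · exact ⟨(lin n).l0.c1, rfl⟩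
    · exact ⟨(lin n).l0.c2, rfl⟩
    · exact ⟨(lin n).l0.c3, rfl⟩
    · exact ⟨(lin n).l1.c0, rfl⟩
    · exact ⟨(lin n).l1.c1, rfl⟩
    · exact ⟨(lin n).l1.c2, rfl⟩
    · exact ⟨(lin n).l1.c3, rfl⟩
    · exact ⟨(lin n).l2.c0, rfl⟩
    · exact ⟨(lin n).l2.c1, rfl⟩
    · exact ⟨(lin n).l2.c2, rfl⟩
    · exact ⟨(lin n).l2.c3, rfl⟩
    · exact ⟨(lin n).l3.c0, rfl⟩
    · exact ⟨(lin n).l3.c1, rfl⟩
    · exact ⟨(lin n).l3.c2, rfl⟩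
    · exact ⟨(lin n).l3.c3, rfl⟩
  obtain ⟨k, hk⟩ := key2 i.1 i.2
  refine ⟨k, ?_⟩
  rw [← hk, ← key, nsmul_eq_mul]
  norm_num

/-- the set of elements of `O` with bounded `tr (g g*)` is finite -/
theorem finite_O (C : ℝ) : {g : A5 ℚ | g ∈ O ∧ trA (toR g * st (toR g)) ≤ C}.Finite := by
  obtain ⟨M, hM⟩ : ∃ M : ℕ, 45 ^ 2 * (4 * C) ≤ M ^ 2 := by
    obtain ⟨M, hM⟩ := exists_nat_ge (45 ^ 2 * (4 * C))
    refine ⟨M, hM.trans ?_⟩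
    have : M ≤ M ^ 2 := by nlinarith [Nat.zero_le M, Nat.le_self_pow (two_ne_zero) M]
    exact_mod_cast this
  have h1 : {f : Fin 4 × Fin 4 → ℤ | ∀ i, f i ∈ Set.Icc (-(M : ℤ)) M}.Finite := by
    have := Set.Finite.pi' (t := fun _ : Fin 4 × Fin 4 => Set.Icc (-(M : ℤ)) M)
      (fun _ => Set.finite_Icc _ _)
    exact this
  have h2 := h1.image (fun f (i : Fin 4 × Fin 4) => (f i : ℚ) / 45)
  refine (h2.preimage (f := coA) coA_inj.injOn).subset ?_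
  rintro g ⟨hO, hC⟩
  choose f hf using coA_int hO
  refine ⟨f, ?_, ?_⟩
  · intro i
    have h3 := coA_bound g hC i
    have h4 : ((f i : ℤ) : ℝ) ^ 2 ≤ M ^ 2 := by
      have : ((f i : ℤ) : ℝ) = 45 * ((coA g i : ℚ) : ℝ) := by
        have := hf i
        have h5 : ((45 * coA g i : ℚ) : ℝ) = ((f i : ℚ) : ℝ) := by rw [this]
        push_cast at h5
        exact h5.symm
      rw [this, mul_pow]
      exact (mul_le_mul_of_nonneg_left h3 (by norm_num)).trans hM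
    have h5 := abs_le_of_sq_le_sq' h4 (Nat.cast_nonneg M)
    constructor
    · have := h5.1
      exact_mod_cast this
    · have := h5.2
      exact_mod_cast this
  · funext i
    show (f i : ℚ) / 45 = coA g i
    rw [← hf i]
    field_simp

theorem rep_e0 (g : (A5 ℝ)ˣ) : ((rep g).1 *ᵥ e0 5) 0 = trA (g.1 * st g.1) := by
  rw [← trA_psi ((rep g).1 *ᵥ e0 5), psi_mulVec]
  have : psi (e0 5) = 1 := psi_e0
  rw [this, mul_one]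

/-- finiteness for `H1` -/
theorem hfin_H1 (C : ℝ) :
    {γ : GL (Fin (5 + 1)) ℝ | γ ∈ H1 ∧ (γ.1 *ᵥ e0 5) 0 ≤ C}.Finite := by
  have hinj : Function.Injective (Units.val : (A5 ℚ)ˣ → A5 ℚ) := Units.val_injective
  have h1 : ((Units.val : (A5 ℚ)ˣ → A5 ℚ) ⁻¹'
      {g : A5 ℚ | g ∈ O ∧ trA (toR g * st (toR g)) ≤ C}).Finite :=
    Set.Finite.preimage hinj.injOn (finite_O C)
  refine (h1.image rhoQ).subset ?_
  rintro γ ⟨hγ, hC⟩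
  obtain ⟨u, hu, rfl⟩ := mem_H1.mp hγ
  refine ⟨u, ⟨hu.1, ?_⟩, rfl⟩
  rw [rhoQ_eq_rep hu.2.2, rep_e0, toU_val] at hC
  exact hC

/-- finiteness passes to finite extensions -/
theorem hfin_of_finiteIndex {m : ℕ} {Γ Γ' : Subgroup (GL (Fin (m + 1)) ℝ)} (hΓ : Γ ≤ IsomHyp m)
    (hfi : (Γ'.subgroupOf Γ).FiniteIndex)
    (hfin : ∀ C : ℝ, {γ : GL (Fin (m + 1)) ℝ | γ ∈ Γ' ∧ (γ.1 *ᵥ e0 m) 0 ≤ C}.Finite) (C : ℝ) :
    {γ : GL (Fin (m + 1)) ℝ | γ ∈ Γ ∧ (γ.1 *ᵥ e0 m) 0 ≤ C}.Finite := by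
  have hfinq : Finite (Γ ⧸ Γ'.subgroupOf Γ) := inferInstance
  obtain ⟨M, hM⟩ := (Set.finite_range (fun q : Γ ⧸ Γ'.subgroupOf Γ =>
    ((q.out : Γ) : GL (Fin (m + 1)) ℝ).1 *ᵥ e0 m)).image (fun v => v 0) |>.bddAbove
  have h1 : (Set.range (fun q : Γ ⧸ Γ'.subgroupOf Γ => ((q.out : Γ) : GL (Fin (m + 1)) ℝ))).Finite :=
    Set.finite_range _
  have h2 := h1.image2 (fun a b => a * b) (hfin (2 * (M * C)))
  refine h2.subset ?_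
  rintro γ ⟨hγ, hC⟩
  set q : Γ ⧸ Γ'.subgroupOf Γ := QuotientGroup.mk ⟨γ, hγ⟩ with hq
  set c : GL (Fin (m + 1)) ℝ := ((q.out : Γ) : GL (Fin (m + 1)) ℝ) with hc
  have hcΓ : c ∈ Γ := q.out.2
  have h3 : c⁻¹ * γ ∈ Γ' := by
    have h2 : (q.out : Γ)⁻¹ * ⟨γ, hγ⟩ ∈ Γ'.subgroupOf Γ := by
      rw [← QuotientGroup.eq]
      exact Quotient.out_eq' q
    exact h2
  refine ⟨c, ⟨q, rfl⟩, c⁻¹ * γ, ⟨h3, ?_⟩, by simp⟩
  have h3 : γ.1 *ᵥ e0 m ∈ Hyp m := (isom_mem (hΓ hγ)).mpr e0_mem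
  have h4 : c.1 *ᵥ e0 m ∈ Hyp m := (isom_mem (hΓ hcΓ)).mpr e0_mem
  have h5 : ((c⁻¹ * γ).1 *ᵥ e0 m) 0 = mink m (c.1 *ᵥ e0 m) (γ.1 *ᵥ e0 m) := by
    rw [mul_mulVec, ← mink_e0_left ((c⁻¹).1 *ᵥ (γ.1 *ᵥ e0 m)), isom_mink_inv (hΓ hcΓ)]
  rw [h5]
  have h6 := mink_le h4 h3
  have h7 : (c.1 *ᵥ e0 m) 0 ≤ M := hM ⟨_, ⟨q, rfl⟩, rfl⟩
  have h8 := one_le_zero h3
  have h9 := one_le_zero h4
  have h10 : (c.1 *ᵥ e0 m) 0 * (γ.1 *ᵥ e0 m) 0 ≤ M * C :=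
    mul_le_mul h7 hC (by linarith) (by linarith)
  linarith

end Pool.Agent.Helper74.TF
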