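import Pool.Agent.Helper74.TF.Defs
import Pool.Agent.Helper77.T2.Gens

/-!
# MP_0fb3e0_gt, part TF: a rational formula for the reduced norm, and its values
-/

set_option autoImplicit false

namespace Pool.Agent.Helper74.TF

open H77T2 L5 A5 Pool.Agent.Helper84.NG

section

variable {R : Type*} [CommRing R]

/-- the reduced norm in terms of the conjugates of the coordinates -/
def nF (a0 a1 a2 a3 b0 b1 b2 b3 c0 c1 c2 c3 d0 d1 d2 d3 : L5 R) : L5 R :=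
  (a0 * a2 + 54 * (c0 * c2)) * (a1 * a3 + 54 * (c1 * c3)) +
    54 * ((b0 * b2 + 54 * (d0 * d2)) * (b1 * b3 + 54 * (d1 * d3))) -
    54 * ((b0 * a3 + 54 * (d0 * c3)) * (c2 * b1 - a2 * d1) +
      (c0 * b3 - a0 * d3) * (b2 * a1 + 54 * (d2 * c1)) +
      (b1 * a0 + 54 * (d1 * c0)) * (c3 * b2 - a3 * d2) +
      (c1 * b0 - a1 * d0) * (b3 * a2 + 54 * (d3 * c2)))

/-- the reduced norm as an element of `L5` -/
def nrP (g : A5 R) : L5 R :=
  nF g.l0 (sg g.l0) (sg (sg g.l0)) (sg (sg (sg g.l0)))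
    g.l1 (sg g.l1) (sg (sg g.l1)) (sg (sg (sg g.l1)))
    g.l2 (sg g.l2) (sg (sg g.l2)) (sg (sg (sg g.l2)))
    g.l3 (sg g.l3) (sg (sg g.l3)) (sg (sg (sg g.l3)))

theorem map_sg {S : Type*} [CommRing S] (f : R →+* S) (u : L5 R) :
    L5.map f (sg u) = sg (L5.map f u) := by
  ext <;> simp

theorem nrP_map {S : Type*} [CommRing S] (f : R →+* S) (g : A5 R) :
    nrP (A5.map f g) = L5.map f (nrP g) := by
  have h0 : (A5.map f g).l0 = L5.map f g.l0 := rfl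
  have h1 : (A5.map f g).l1 = L5.map f g.l1 := rfl
  have h2 : (A5.map f g).l2 = L5.map f g.l2 := rfl
  have h3 : (A5.map f g).l3 = L5.map f g.l3 := rfl
  unfold nrP nF
  rw [h0, h1, h2, h3]
  simp only [map_add, map_sub, map_mul, map_sg, map_ofNat]

end

theorem star_l0 (g : A5 ℝ) : (g * st g).l0 = g.l0 * sg (sg g.l0) +
    L5.of s54 * (g.l1 * sg (sg g.l1)) + 54 * (g.l2 * sg (sg g.l2)) +
    54 * (L5.of s54 * (g.l3 * sg (sg g.l3))) := by
  rw [mul_l0]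
  simp only [st_l0, st_l1, st_l2, st_l3, map_neg, map_mul, sg_of, sg_sg_sg_sg, cj]
  linear_combination (g.l1 * sg (sg g.l1)) * of_54_mul

theorem star_l1 (g : A5 ℝ) : (g * st g).l1 = -(L5.of s54 * (g.l0 * sg (sg (sg g.l3)))) +
    g.l1 * sg (sg (sg g.l0)) + L5.of s54 * (g.l2 * sg (sg (sg g.l1))) +
    54 * (g.l3 * sg (sg (sg g.l2))) := by
  rw [mul_l1]
  simp only [st_l0, st_l1, st_l2, st_l3, map_neg, map_mul, sg_of, cj]
  linear_combination (g.l2 * sg (sg (sg g.l1))) * of_54_mul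

theorem NN_form (S a0 a1 a2 a3 b0 b1 b2 b3 c0 c1 c2 c3 d0 d1 d2 d3 : L5 ℝ) (h : S * S = 54) :
    (a0 * a2 + S * (b0 * b2) + 54 * (c0 * c2) + 54 * (S * (d0 * d2))) *
      (a1 * a3 + S * (b1 * b3) + 54 * (c1 * c3) + 54 * (S * (d1 * d3))) -
    S * ((-(S * (a0 * d3)) + b0 * a3 + S * (c0 * b3) + 54 * (d0 * c3)) *
        (-(S * (a2 * d1)) + b2 * a1 + S * (c2 * b1) + 54 * (d2 * c1)) +
      (-(S * (a1 * d0)) + b1 * a0 + S * (c1 * b0) + 54 * (d1 * c0)) *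
        (-(S * (a3 * d2)) + b3 * a2 + S * (c3 * b2) + 54 * (d3 * c2))) =
      nF a0 a1 a2 a3 b0 b1 b2 b3 c0 c1 c2 c3 d0 d1 d2 d3 := by
  unfold nF
  linear_combination ((b0 * b2 + 54 * (d0 * d2)) * (b1 * b3 + 54 * (d1 * d3)) -
    ((b0 * a3 + 54 * (d0 * c3)) * (c2 * b1 - a2 * d1) +
      (c0 * b3 - a0 * d3) * (b2 * a1 + 54 * (d2 * c1)) +
      (b1 * a0 + 54 * (d1 * c0)) * (c3 * b2 - a3 * d2) +
      (c1 * b0 - a1 * d0) * (b3 * a2 + 54 * (d3 * c2))) -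
    S * ((c0 * b3 - a0 * d3) * (c2 * b1 - a2 * d1) + (c1 * b0 - a1 * d0) * (c3 * b2 - a3 * d2))) * h

/-- the rational formula -/
theorem nr_formula (g : A5 ℝ) : L5.of (nr g) = nrP g := by
  have hf : ∀ a : L5 ℝ, sg (sg (sg (sg a))) = a := sg_sg_sg_sg
  rw [← NN_star, NN, star_l0, star_l1, nrP, ← NN_form (L5.of s54) _ _ _ _ _ _ _ _ _ _ _ _ _ _ _ _
    of_s54_mul]
  simp only [map_add, map_mul, map_neg, map_ofNat, sg_of, hf]

theorem nr_toR (g : A5 ℚ) : nr (toR g) = ((nrP g).c0 : ℝ) := by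
  have h := nr_formula (toR g)
  rw [toR, nrP_map] at h
  exact congrArg L5.c0 h

theorem nr_toR_toQ (g : A5 ℤ) : nr (toR (toQ g)) = ((nrP g).c0 : ℝ) := by
  rw [nr_toR, toQ, nrP_map]
  show (((Int.castRingHom ℚ) (nrP g).c0 : ℚ) : ℝ) = _
  simp

theorem nr45 : nr (toR 45) = 45 ^ 4 := by
  have h := nr_toR_toQ 45
  have h1 : (nrP (45 : A5 ℤ)).c0 = 45 ^ 4 := by decide +kernel
  rw [h1, map_ofNat] at h
  rw [h]
  norm_num

theorem nr_oe {n : Fin 16 → ℤ} (N : ℤ) (h : (nrP (lin n)).c0 = 45 ^ 4 * N) :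
    nr (toR (oe n)) = N := by
  have h1 := nr_toR_toQ (lin n)
  rw [← oe_eq, map_mul, nr_mul, nr45, h] at h1
  push_cast at h1
  linarith

theorem nr_x : nr (toR A5.x) = 54 := by
  have h := nr_toR_toQ A5.x
  have h1 : (nrP (A5.x : A5 ℤ)).c0 = 54 := by decide +kernel
  have h2 : toQ A5.x = A5.x := by
    ext <;> simp [toQ, A5.map, A5.x, L5.map]
  rw [h1, h2] at h
  rw [h]
  norm_num

theorem nr_w : nr (toR (oe (ec 0))) = 4 := by
  rw [nr_oe 4 (by decide +kernel)]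
  norm_num

theorem uO_mem {n m : Fin 16 → ℤ} (h : lin n * lin m = 2025) (h' : lin m * lin n = 2025)
    (hN : (nrP (lin n)).c0 = 45 ^ 4 * 1) : uO n m h h' ∈ OU := by
  refine ⟨oe_mem n, oe_mem m, ?_⟩
  show nr (toR (oe n)) = 1
  rw [nr_oe 1 hN]
  norm_num

theorem uz_mem : uz ∈ OU := uO_mem _ _ (by decide +kernel)
theorem u1_mem : u1 ∈ OU := uO_mem _ _ (by decide +kernel)
theorem u2_mem : u2 ∈ OU := uO_mem _ _ (by decide +kernel)
theorem uk0_mem : uk0 ∈ OU := uO_mem _ _ (by decide +kernel)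
theorem uk4_mem : uk4 ∈ OU := uO_mem _ _ (by decide +kernel)
theorem uv2_mem : uv2 ∈ OU := uO_mem _ _ (by decide +kernel)
theorem uv3_mem : uv3 ∈ OU := uO_mem _ _ (by decide +kernel)

end Pool.Agent.Helper74.TF
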