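import Pool.Agent.Helper84.NG.Nrm

/-!
# MP_0fb3e0_gt, part TF: the normalised representation

The reduced norm of a unit of `A5 ℝ` is positive; `rhoN y = (nr y)^(-1/2) rep y`.
-/

set_option autoImplicit false

namespace Pool.Agent.Helper74.TF

open H77T2 L5 A5 Pool.Agent.Helper84.NG

theorem trA_one : trA (1 : A5 ℝ) = 1 := by
  rw [trA_apply, trL_apply]; simp

theorem trA_nonneg (a : A5 ℝ) : 0 ≤ trA (a * st a) := by
  by_cases h : a = 0
  · rw [h, zero_mul, map_zero]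
  · exact (trStar.pos a h).le

theorem nr_eq_mink (g : A5 ℝ) : mink 5 (MM g (Pi.single 0 1)) (MM g (Pi.single 0 1)) = nr g := by
  rw [mink_MM]
  have : mink 5 (Pi.single 0 1 : Fin (5 + 1) → ℝ) (Pi.single 0 1) = 1 := by
    unfold mink
    rw [Fin.sum_univ_five]
    simp
  rw [this, mul_one]

theorem nr_ne_zero (g : (A5 ℝ)ˣ) : nr g.1 ≠ 0 := by
  intro h
  have h1 : nr (g.1 * g⁻¹.1) = 1 := by rw [Units.mul_inv, nr_one]
  rw [nr_mul, h, zero_mul] at h1
  exact zero_ne_one h1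

/-- the reduced norm of a unit is positive -/
theorem nr_pos (g : (A5 ℝ)ˣ) : 0 < nr g.1 := by
  by_contra hcon
  have hN : nr g.1 < 0 := lt_of_le_of_ne (not_lt.mp hcon) (nr_ne_zero g)
  obtain ⟨y, hy⟩ : ∃ y, y = MM g.1 (Pi.single 0 1) := ⟨_, rfl⟩
  have hp : psi y = g.1 * st g.1 := by rw [hy, psi_MM, psi_e0, mul_one]
  have hq := model.quad y
  have hNy : mink 5 y y = nr g.1 := by rw [hy, nr_eq_mink]
  rw [hNy] at hq
  obtain ⟨s, hs0, hs⟩ : ∃ s : ℝ, 0 ≤ s ∧ s * s = y 0 * y 0 - nr g.1 := by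
    have h0 : 0 ≤ y 0 * y 0 - nr g.1 := by nlinarith [mul_self_nonneg (y 0)]
    exact ⟨Real.sqrt _, Real.sqrt_nonneg _, Real.mul_self_sqrt h0⟩
  have hl2 : y 0 - s < 0 := by
    by_contra h
    push Not at h
    have : s * s ≤ y 0 * y 0 := mul_self_le_mul_self hs0 (by linarith)
    linarith
  obtain ⟨a, ha⟩ : ∃ a, a = psi y - (y 0 + s) • (1 : A5 ℝ) := ⟨_, rfl⟩
  have hpa : psi y * a = (y 0 - s) • a := by
    rw [ha, mul_sub, hq, mul_smul_comm, mul_one, smul_sub, smul_smul]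
    have e1 : (y 0 - s) * (y 0 + s) = nr g.1 := by nlinarith
    rw [e1]
    module
  by_cases ha0 : a = 0
  · rw [ha] at ha0
    have h1 : psi y = (y 0 + s) • (1 : A5 ℝ) := sub_eq_zero.mp ha0
    have h2 : y 0 = y 0 + s := by
      have := congrArg trA h1
      rwa [trA_psi, map_smul, trA_one, smul_eq_mul, mul_one] at this
    have h3 : s = 0 := by linarith
    rw [h3, mul_zero] at hs
    nlinarith [mul_self_nonneg (y 0)]
  · have h1 : trA (psi y * a * st a) = (y 0 - s) * trA (a * st a) := by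
      rw [hpa, smul_mul_assoc, map_smul, smul_eq_mul]
    have h2 : trA (psi y * a * st a) = trA ((st g.1 * a) * st (st g.1 * a)) := by
      rw [hp, st_mul, st_st, trA_comm (st g.1 * a)]
      have e : st a * g.1 * (st g.1 * a) = st a * (g.1 * st g.1 * a) := by simp only [mul_assoc]
      rw [e, trA_comm]
    have h3 := trA_nonneg (st g.1 * a)
    have h4 : 0 < trA (a * st a) := trStar.pos a ha0
    rw [← h2, h1] at h3
    have := mul_neg_of_neg_of_pos hl2 h4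
    linarith

/-- the scaling factor -/
noncomputable def cU : (A5 ℝ)ˣ →* ℝˣ where
  toFun g := Units.mk0 (Real.sqrt (nr g.1))⁻¹ (inv_ne_zero (Real.sqrt_ne_zero'.mpr (nr_pos g)))
  map_one' := by
    apply Units.ext
    simp [nr_one]
  map_mul' g h := by
    apply Units.ext
    simp only [Units.val_mk0, Units.val_mul]
    rw [nr_mul, Real.sqrt_mul (nr_pos g).le, mul_inv]

theorem cU_val (g : (A5 ℝ)ˣ) : (cU g : ℝ) = (Real.sqrt (nr g.1))⁻¹ := rfl

theorem cU_pos (g : (A5 ℝ)ˣ) : 0 < (cU g : ℝ) := by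
  rw [cU_val]
  exact inv_pos.mpr (Real.sqrt_pos.mpr (nr_pos g))

theorem cU_sq (g : (A5 ℝ)ˣ) : (cU g : ℝ) * (cU g : ℝ) * nr g.1 = 1 := by
  rw [cU_val, ← mul_inv, Real.mul_self_sqrt (nr_pos g).le]
  exact inv_mul_cancel₀ (nr_pos g).ne'

/-- scalar matrices -/
noncomputable def scG : ℝˣ →* GL (Fin (5 + 1)) ℝ :=
  Units.map (algebraMap ℝ (Matrix (Fin (5 + 1)) (Fin (5 + 1)) ℝ)).toMonoidHom

theorem scG_val (c : ℝˣ) :
    (scG c).1 = algebraMap ℝ (Matrix (Fin (5 + 1)) (Fin (5 + 1)) ℝ) (c : ℝ) := rfl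

theorem scG_comm (c : ℝˣ) (M : GL (Fin (5 + 1)) ℝ) : scG c * M = M * scG c := by
  apply Units.ext
  rw [Units.val_mul, Units.val_mul, scG_val]
  exact Algebra.commutes _ _

/-- the normalised representation -/
noncomputable def rhoN : (A5 ℝ)ˣ →* GL (Fin (5 + 1)) ℝ where
  toFun g := scG (cU g) * rep g
  map_one' := by rw [map_one, map_one, map_one, one_mul]
  map_mul' g h := by
    rw [map_mul, map_mul, map_mul]
    rw [mul_assoc, mul_assoc, ← mul_assoc (scG (cU h)), scG_comm (cU h) (rep g)]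
    simp only [mul_assoc]

theorem rhoN_def (g : (A5 ℝ)ˣ) : rhoN g = scG (cU g) * rep g := rfl

theorem rhoN_mulVec (g : (A5 ℝ)ˣ) (y : Fin (5 + 1) → ℝ) :
    (rhoN g).1.mulVec y = (cU g : ℝ) • MM g.1 y := by
  rw [rhoN_def, Units.val_mul, ← Matrix.mulVec_mulVec, rep_mulVec, scG_val,
    Algebra.algebraMap_eq_smul_one, Matrix.smul_mulVec, Matrix.one_mulVec]

theorem mink_smul (c : ℝ) (v w : Fin (5 + 1) → ℝ) : mink 5 (c • v) (c • w) = c * c * mink 5 v w := by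
  unfold mink
  simp only [Pi.smul_apply, smul_eq_mul]
  rw [mul_sub, Finset.mul_sum]
  congr 1
  · ring
  · exact Finset.sum_congr rfl fun i _ => by ring

theorem rhoN_mem (g : (A5 ℝ)ˣ) : rhoN g ∈ IsomHyp 5 := by
  have h1 : ∀ v w, mink 5 ((rhoN g).1.mulVec v) ((rhoN g).1.mulVec w) = mink 5 v w := by
    intro v w
    rw [rhoN_mulVec, rhoN_mulVec, mink_smul, mink_MM, ← mul_assoc, cU_sq, one_mul]
  refine ⟨h1, fun v hv => ⟨?_, ?_⟩⟩
  · rw [h1]; exact hv.1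
  · rw [rhoN_mulVec, Pi.smul_apply, smul_eq_mul]
    exact mul_pos (cU_pos g) (MM_pos g hv)

theorem cU_of_sq {n : ℝ} (hn : 0 < n) {g : (A5 ℝ)ˣ} (h : n ^ 2 = nr g.1) : (cU g : ℝ) = n⁻¹ := by
  rw [cU_val, ← h, Real.sqrt_sq hn.le]

theorem rhoN_apply {n : ℝ} (hn : 0 < n) {g : (A5 ℝ)ˣ} (h : n ^ 2 = nr g.1) (v : Fin 6 → ℝ) :
    (rhoN g).1.mulVec (CC v) = CC (n⁻¹ • T g.1 v) := by
  rw [rhoN_mulVec, cU_of_sq hn h, MM_CC, map_smul]

theorem rhoN_eq_rep {g : (A5 ℝ)ˣ} (h : nr g.1 = 1) : rhoN g = rep g := by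
  have : cU g = 1 := by
    apply Units.ext
    rw [cU_val, h, Real.sqrt_one, inv_one, Units.val_one]
  rw [rhoN_def, this, map_one, one_mul]

end Pool.Agent.Helper74.TF
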